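import Pool.Agent.K.MP_26ecb7_gt.C2
import Pool.Agent.P.MP_26ecb7_gt.Stmt

open Pool.Agent.Bor in
theorem Pool.Agent.Results.MP_26ecb7_gt.Endpoint.result :
    ∀ (F : EuclideanSpace ℝ (Fin 3) → ℝ)
      (v : EuclideanSpace ℝ (Fin 3) → EuclideanSpace ℝ (Fin 3)) (α : NNReal),
      Ovaloid F → (2 / 3 : NNReal) ≤ α → HolderIsometric F v α →
      ∃ A : EuclideanSpace ℝ (Fin 3) ≃ᵢ EuclideanSpace ℝ (Fin 3),
        ∀ x ∈ F ⁻¹' {0}, v x = A x := by
  intro F v α ⟨h1, h2, h3, h4, h5⟩ ha ⟨⟨U, hUo, hUs, hUc⟩, ⟨C, hH⟩, hiso⟩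
  obtain ⟨X, hX, hnu⟩ := (Lev.mk h1 h2 h3 h4 h5).exists_surf
  have ha' : (2 / 3 : ℝ) ≤ (α : ℝ) := by exact_mod_cast ha
  obtain ⟨D, hD⟩ := Metric.isBounded_iff.1 h2.isBounded
  let I : Iso X :=
    { v := v
      al := 2 / 3
      C := C * max D 0 ^ ((α : ℝ) - 2 / 3)
      al_gt := by norm_num
      al_le := by norm_num
      C_nonneg := by positivity
      c1 := fun q hq => hUc.contDiffAt (hUo.mem_nhds (hUs (hX ▸ hq)))
      hol := fun q hq q' hq' => by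
        have k1 := hH.dist_le (hX ▸ hq) (hX ▸ hq')
        have k2 := hD (hX ▸ hq : q ∈ F ⁻¹' {0}) (hX ▸ hq' : q' ∈ F ⁻¹' {0})
        rw [dist_eq_norm] at k1 k2
        rw [dist_eq_norm] at k1
        refine k1.trans ?_
        rw [mul_assoc]
        refine mul_le_mul_of_nonneg_left ?_ C.2
        have k3 : (α : ℝ) = ((α : ℝ) - 2 / 3) + 2 / 3 := by ring
        rw [k3, Real.rpow_add' (norm_nonneg _) (by linarith), ← k3]
        exact mul_le_mul_of_nonneg_right (Real.rpow_le_rpow (norm_nonneg _)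
          (k2.trans (le_max_left _ _)) (by linarith)) (Real.rpow_nonneg (norm_nonneg _) _)
      iso := fun q hq a h => hiso q (hX ▸ hq) a ((hnu q hq a).1 h) }
  have key := I.rigid2 rfl
  rw [hX] at key
  exact key
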