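import Pool.Agent.K.MP_26ecb7_gt.C1
import Pool.Agent.P.MP_26ecb7_gt.Stmt

open Pool.Agent.Bor in
theorem Pool.Agent.Results.MP_26ecb7_gt.RemovableSet.result :
    ∀ (F : EuclideanSpace ℝ (Fin 3) → ℝ)
      (v : EuclideanSpace ℝ (Fin 3) → EuclideanSpace ℝ (Fin 3)) (α : NNReal)
      (S : Set (EuclideanSpace ℝ (Fin 3))),
      Ovaloid F → (1 / 2 : NNReal) < α → α ≤ 1 → HolderIsometric F v α →
      MeasureTheory.Measure.hausdorffMeasure (3 * (α : ℝ)) S = 0 →
      (∀ x ∈ F ⁻¹' {0} \ S, RegularAt (fderiv ℝ v) (F ⁻¹' {0}) x) →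
      ∃ A : EuclideanSpace ℝ (Fin 3) ≃ᵢ EuclideanSpace ℝ (Fin 3),
        ∀ x ∈ F ⁻¹' {0}, v x = A x := by
  intro F v α S ⟨h1, h2, h3, h4, h5⟩ ha ha1 ⟨hU, ⟨C, hH⟩, hiso⟩ hS hg
  obtain ⟨X, hX, hnu⟩ := (Lev.mk h1 h2 h3 h4 h5).exists_surf
  obtain ⟨U, hUo, hUs, hUc⟩ := hU
  have ha' : (1 / 2 : ℝ) < (α : ℝ) := by exact_mod_cast ha
  let I : Iso X :=
    { v := v
      al := α
      C := C
      al_gt := ha'
      al_le := by exact_mod_cast ha1
      C_nonneg := C.2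
      c1 := fun q hq => hUc.contDiffAt (hUo.mem_nhds (hUs (hX ▸ hq)))
      hol := fun q hq q' hq' => by
        have := hH.dist_le (hX ▸ hq) (hX ▸ hq')
        rwa [dist_eq_norm, dist_eq_norm] at this
      iso := fun q hq a h => hiso q (hX ▸ hq) a ((hnu q hq a).1 h) }
  have key := I.rigid (B := S) hS (fun q hq hqS => by
    have h := hg q ⟨hX ▸ hq, hqS⟩
    have hmax : ∀ {L : ℝ} (t s : ℝ), 0 ≤ t → L * t ^ s ≤ max L 0 * t ^ s := fun t s ht =>
      mul_le_mul_of_nonneg_right (le_max_left _ _) (Real.rpow_nonneg ht _)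
    rw [← hX] at h
    rcases h with ⟨r, L, b, c, hr, hb, hb1, hc, k1, k2⟩ | ⟨r, L, hr, k1, k2⟩ | h | ⟨r, M, hr, h⟩
    · refine Or.inl (good_of_exp hr (le_max_right L 0) hb hb1 hc (fun y hy z hz => ?_)
        (fun y hy => ?_))
      · rw [dist_eq_norm, dist_eq_norm]
        exact (k1 y hy z hz).trans (hmax _ _ (norm_nonneg _))
      · rw [dist_eq_norm, dist_eq_norm]
        exact (k2 y hy).trans (hmax _ _ (norm_nonneg _))
    · refine Or.inl (good_of_little hr (le_max_right L 0) (fun y hy z hz => ?_) (fun η hη => ?_))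
      · rw [dist_eq_norm, dist_eq_norm]
        exact (k1 y hy z hz).trans (hmax _ _ (norm_nonneg _))
      · have k3 := k2.def hη
        rw [eventually_nhdsWithin_iff, Metric.eventually_nhds_iff_ball] at k3
        obtain ⟨ρ, hρ, k4⟩ := k3
        refine ⟨ρ, hρ, fun y hy => ?_⟩
        have k5 := k4 y hy.2 hy.1
        rw [Real.norm_of_nonneg (Real.rpow_nonneg (norm_nonneg _) _)] at k5
        rw [dist_eq_norm, dist_eq_norm]
        exact k5
    · exact Or.inr h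
    · exact Or.inr (BesS.of_bv X.cpt.measurableSet I.al_gt I.C_nonneg hr I.hol h))
  rw [hX] at key
  exact key
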